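import Mathlib

/-!
The Koenigs function of a map `R` of a ball of a complex Banach space with `R x = x/2 + O(‖x‖²)`:
`L x = lim 2^n R^n(x)`.
-/

set_option autoImplicit false

namespace Pool.Agent.Work.MP_970e75_an.LX

open Filter Topology Set Metric

variable {E : Type*} [NormedAddCommGroup E] [NormedSpace ℂ E]

/-- Hypotheses on the square root map `R` in a chart. -/
structure Contr (R : E → E) (ρ C : ℝ) : Prop where
  ρ_pos : 0 < ρ
  C_nonneg : 0 ≤ C
  small : ∀ x, ‖x‖ < ρ → ‖R x‖ ≤ (2 / 3) * ‖x‖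
  est : ∀ x, ‖x‖ < ρ → ‖(2 : ℂ) • R x - x‖ ≤ C * ‖x‖ ^ 2
  diff : ∀ x, ‖x‖ < ρ → DifferentiableAt ℂ R x
  dest : ∀ x, ‖x‖ < ρ → ‖(2 : ℂ) • fderiv ℂ R x - ContinuousLinearMap.id ℂ E‖ ≤ C * ‖x‖
  cont : ContinuousOn (fderiv ℂ R) (ball 0 ρ)

namespace Contr

variable {R : E → E} {ρ C : ℝ}

theorem iter_le (h : Contr R ρ C) {x : E} (hx : ‖x‖ < ρ) (n : ℕ) :
    ‖R^[n] x‖ ≤ (2 / 3) ^ n * ‖x‖ := by
  induction n with
  | zero => simp
  | succ n ih =>
    rw [Function.iterate_succ_apply']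
    have h1 : ‖R^[n] x‖ ≤ ‖x‖ := by
      refine ih.trans ?_
      have : ((2 : ℝ) / 3) ^ n ≤ 1 := pow_le_one₀ (by norm_num) (by norm_num)
      nlinarith [norm_nonneg x]
    refine (h.small _ (lt_of_le_of_lt h1 hx)).trans ?_
    rw [pow_succ]
    linarith

theorem iter_lt (h : Contr R ρ C) {x : E} (hx : ‖x‖ < ρ) (n : ℕ) : ‖R^[n] x‖ < ρ := by
  refine lt_of_le_of_lt (h.iter_le hx n) (lt_of_le_of_lt ?_ hx)
  have : ((2 : ℝ) / 3) ^ n ≤ 1 := pow_le_one₀ (by norm_num) (by norm_num)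
  nlinarith [norm_nonneg x]

/-- Derivatives of the iterates. -/
noncomputable def B (R : E → E) : ℕ → E → (E →L[ℂ] E)
  | 0, _ => ContinuousLinearMap.id ℂ E
  | n + 1, x => (fderiv ℂ R (R^[n] x)).comp (B R n x)

theorem hasFDerivAt_iter (h : Contr R ρ C) {x : E} (hx : ‖x‖ < ρ) (n : ℕ) :
    HasFDerivAt (R^[n]) (B R n x) x := by
  induction n with
  | zero => exact hasFDerivAt_id x
  | succ n ih =>
    have h1 : HasFDerivAt R (fderiv ℂ R (R^[n] x)) (R^[n] x) :=
      (h.diff _ (h.iter_lt hx n)).hasFDerivAt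
    rw [Function.iterate_succ']
    exact h1.comp x ih

/-- Derivatives of `2^n R^n`. -/
noncomputable def A (R : E → E) (n : ℕ) (x : E) : E →L[ℂ] E := (2 : ℂ) ^ n • B R n x

theorem A_succ (n : ℕ) (x : E) :
    A R (n + 1) x = ((2 : ℂ) • fderiv ℂ R (R^[n] x)).comp (A R n x) := by
  ext v
  simp only [A, B, ContinuousLinearMap.smul_comp, ContinuousLinearMap.comp_smul, pow_succ,
    smul_smul]

theorem hasFDerivAt_f (h : Contr R ρ C) {x : E} (hx : ‖x‖ < ρ) (n : ℕ) :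
    HasFDerivAt (fun x => (2 : ℂ) ^ n • R^[n] x) (A R n x) x :=
  (h.hasFDerivAt_iter hx n).const_smul _

theorem norm_A_le (h : Contr R ρ C) {x : E} (hx : ‖x‖ < ρ) (n : ℕ) :
    ‖A R n x‖ ≤ Real.exp (3 * (C * ρ) * (1 - (2 / 3) ^ n)) := by
  induction n with
  | zero =>
    simp only [A, B, pow_zero, one_smul, sub_self, mul_zero, Real.exp_zero]
    exact ContinuousLinearMap.norm_id_le
  | succ n ih =>
    rw [A_succ]
    have h1 : ‖(2 : ℂ) • fderiv ℂ R (R^[n] x)‖ ≤ 1 + C * ρ * (2 / 3) ^ n := by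
      have h2 := h.dest _ (h.iter_lt hx n)
      have h3 : ‖(2 : ℂ) • fderiv ℂ R (R^[n] x)‖ ≤
          ‖(2 : ℂ) • fderiv ℂ R (R^[n] x) - ContinuousLinearMap.id ℂ E‖ +
            ‖ContinuousLinearMap.id ℂ E‖ := by
        simpa using norm_add_le ((2 : ℂ) • fderiv ℂ R (R^[n] x) - ContinuousLinearMap.id ℂ E)
          (ContinuousLinearMap.id ℂ E)
      have h4 : ‖ContinuousLinearMap.id ℂ E‖ ≤ 1 := ContinuousLinearMap.norm_id_le
      have h5 : C * ‖R^[n] x‖ ≤ C * ρ * (2 / 3) ^ n := by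
        have h6 := h.iter_le hx n
        have h7 : (2 / 3 : ℝ) ^ n * ‖x‖ ≤ (2 / 3) ^ n * ρ :=
          mul_le_mul_of_nonneg_left hx.le (by positivity)
        calc C * ‖R^[n] x‖ ≤ C * ((2 / 3) ^ n * ρ) :=
              mul_le_mul_of_nonneg_left (h6.trans h7) h.C_nonneg
          _ = C * ρ * (2 / 3) ^ n := by ring
      linarith
    have h8 : 1 + C * ρ * (2 / 3 : ℝ) ^ n ≤ Real.exp (C * ρ * (2 / 3) ^ n) := by
      rw [add_comm]; exact Real.add_one_le_exp _
    calc ‖((2 : ℂ) • fderiv ℂ R (R^[n] x)).comp (A R n x)‖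
        ≤ ‖(2 : ℂ) • fderiv ℂ R (R^[n] x)‖ * ‖A R n x‖ := ContinuousLinearMap.opNorm_comp_le _ _
      _ ≤ Real.exp (C * ρ * (2 / 3) ^ n) * Real.exp (3 * (C * ρ) * (1 - (2 / 3) ^ n)) :=
          mul_le_mul (h1.trans h8) ih (norm_nonneg _) (Real.exp_pos _).le
      _ = Real.exp (3 * (C * ρ) * (1 - (2 / 3) ^ (n + 1))) := by
          rw [← Real.exp_add]; congr 1; rw [pow_succ]; ring

theorem norm_A_le' (h : Contr R ρ C) {x : E} (hx : ‖x‖ < ρ) (n : ℕ) :
    ‖A R n x‖ ≤ Real.exp (3 * (C * ρ)) := by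
  refine (h.norm_A_le hx n).trans (Real.exp_le_exp.2 ?_)
  have h1 : 0 ≤ C * ρ := mul_nonneg h.C_nonneg h.ρ_pos.le
  have h2 : (0 : ℝ) ≤ (2 / 3) ^ n := by positivity
  nlinarith

theorem norm_A_sub_le (h : Contr R ρ C) {x : E} (hx : ‖x‖ < ρ) (n : ℕ) :
    ‖A R (n + 1) x - A R n x‖ ≤ C * ρ * Real.exp (3 * (C * ρ)) * (2 / 3) ^ n := by
  have h0 : A R (n + 1) x - A R n x =
      ((2 : ℂ) • fderiv ℂ R (R^[n] x) - ContinuousLinearMap.id ℂ E).comp (A R n x) := by
    rw [A_succ, ContinuousLinearMap.sub_comp, ContinuousLinearMap.id_comp]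
  rw [h0]
  refine (ContinuousLinearMap.opNorm_comp_le _ _).trans ?_
  have h2 := h.dest _ (h.iter_lt hx n)
  have h5 : C * ‖R^[n] x‖ ≤ C * ρ * (2 / 3) ^ n := by
    have h6 := h.iter_le hx n
    have h7 : (2 / 3 : ℝ) ^ n * ‖x‖ ≤ (2 / 3) ^ n * ρ :=
      mul_le_mul_of_nonneg_left hx.le (by positivity)
    calc C * ‖R^[n] x‖ ≤ C * ((2 / 3) ^ n * ρ) :=
          mul_le_mul_of_nonneg_left (h6.trans h7) h.C_nonneg
      _ = C * ρ * (2 / 3) ^ n := by ring
  calc _ ≤ (C * ρ * (2 / 3) ^ n) * Real.exp (3 * (C * ρ)) :=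
        mul_le_mul (h2.trans h5) (h.norm_A_le' hx n) (norm_nonneg _)
          (mul_nonneg (mul_nonneg h.C_nonneg h.ρ_pos.le) (by positivity))
    _ = _ := by ring

theorem norm_f_sub_le (h : Contr R ρ C) {x : E} (hx : ‖x‖ < ρ) (n : ℕ) :
    ‖(2 : ℂ) ^ (n + 1) • R^[n + 1] x - (2 : ℂ) ^ n • R^[n] x‖ ≤ C * ρ ^ 2 * (8 / 9) ^ n := by
  have h0 : (2 : ℂ) ^ (n + 1) • R^[n + 1] x - (2 : ℂ) ^ n • R^[n] x =
      (2 : ℂ) ^ n • ((2 : ℂ) • R (R^[n] x) - R^[n] x) := by
    rw [Function.iterate_succ_apply', pow_succ, smul_sub, smul_smul]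
  rw [h0, norm_smul, norm_pow]
  have h1 := h.est _ (h.iter_lt hx n)
  have h2 : ‖R^[n] x‖ ^ 2 ≤ ((2 / 3) ^ n * ρ) ^ 2 := by
    refine pow_le_pow_left₀ (norm_nonneg _) ((h.iter_le hx n).trans ?_) 2
    exact mul_le_mul_of_nonneg_left hx.le (by positivity)
  have h3 : ‖(2 : ℂ)‖ = 2 := by simp
  rw [h3]
  calc (2 : ℝ) ^ n * ‖(2 : ℂ) • R (R^[n] x) - R^[n] x‖
      ≤ 2 ^ n * (C * ((2 / 3) ^ n * ρ) ^ 2) :=
        mul_le_mul_of_nonneg_left (h1.trans (mul_le_mul_of_nonneg_left h2 h.C_nonneg))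
          (by positivity)
    _ = C * ρ ^ 2 * (8 / 9) ^ n := by
        have : (8 / 9 : ℝ) ^ n = 2 ^ n * ((2 / 3) ^ n) ^ 2 := by
          rw [← pow_mul, mul_comm n 2, pow_mul, ← mul_pow]; norm_num
        rw [this]; ring

theorem B_zero_point (h : Contr R ρ C) (n : ℕ) : A R n 0 = ContinuousLinearMap.id ℂ E := by
  have hR0 : R 0 = 0 := by
    have := h.small 0 (by simpa using h.ρ_pos)
    simpa using this
  have hit : ∀ n, R^[n] 0 = 0 := fun n => Function.iterate_fixed hR0 n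
  have hd : (2 : ℂ) • fderiv ℂ R 0 = ContinuousLinearMap.id ℂ E := by
    have := h.dest 0 (by simpa using h.ρ_pos)
    simpa [sub_eq_zero] using this
  induction n with
  | zero => simp [A, B]
  | succ n ih => rw [A_succ, ih, hit n, hd, ContinuousLinearMap.comp_id]

variable [CompleteSpace E]

/-- The Koenigs function. -/
theorem koenigs (h : Contr R ρ C) : ∃ L : E → E, ContDiffOn ℂ 1 L (ball 0 ρ) ∧
    HasFDerivAt L (ContinuousLinearMap.id ℂ E) 0 ∧ L 0 = 0 ∧
    ∀ x, ‖x‖ < ρ → Tendsto (fun n => (2 : ℂ) ^ n • R^[n] x) atTop (𝓝 (L x)) := by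
  -- pointwise convergence
  have hsum : ∀ x, ‖x‖ < ρ →
      Summable (fun n => (2 : ℂ) ^ (n + 1) • R^[n + 1] x - (2 : ℂ) ^ n • R^[n] x) := by
    intro x hx
    refine Summable.of_norm_bounded (g := fun n => C * ρ ^ 2 * (8 / 9) ^ n) ?_
      (fun n => h.norm_f_sub_le hx n)
    exact (summable_geometric_of_lt_one (by norm_num) (by norm_num)).mul_left _
  let L : E → E := fun x =>
    x + ∑' n, ((2 : ℂ) ^ (n + 1) • R^[n + 1] x - (2 : ℂ) ^ n • R^[n] x)
  have hL : ∀ x, ‖x‖ < ρ → Tendsto (fun n => (2 : ℂ) ^ n • R^[n] x) atTop (𝓝 (L x)) := by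
    intro x hx
    have h1 := ((hsum x hx).hasSum.tendsto_sum_nat).const_add x
    refine h1.congr (fun n => ?_)
    rw [Finset.sum_range_sub (fun n => (2 : ℂ) ^ n • R^[n] x)]
    simp
  -- uniform convergence of the derivatives
  let A' : E → (E →L[ℂ] E) := fun x =>
    ContinuousLinearMap.id ℂ E + ∑' n, (A R (n + 1) x - A R n x)
  have hu : Summable (fun n : ℕ => C * ρ * Real.exp (3 * (C * ρ)) * (2 / 3 : ℝ) ^ n) :=
    (summable_geometric_of_lt_one (by norm_num) (by norm_num)).mul_left _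
  have hunif : TendstoUniformlyOn (fun n x => A R n x) A' atTop (ball 0 ρ) := by
    have h1 := tendstoUniformlyOn_tsum_nat (f := fun n x => A R (n + 1) x - A R n x) hu
      (s := ball (0 : E) ρ) (fun n x hx => h.norm_A_sub_le (by simpa using hx) n)
    rw [Metric.tendstoUniformlyOn_iff] at h1 ⊢
    intro ε hε
    filter_upwards [h1 ε hε] with n hn x hx
    have h2 := hn x hx
    have h3 : A R n x = ContinuousLinearMap.id ℂ E +
        ∑ k ∈ Finset.range n, (A R (k + 1) x - A R k x) := by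
      rw [Finset.sum_range_sub (fun n => A R n x)]
      simp [A, B]
    rw [h3]
    simp only [A', dist_add_left]
    exact h2
  have hder : ∀ x, ‖x‖ < ρ → HasFDerivAt L (A' x) x := by
    intro x hx
    exact hasFDerivAt_of_tendstoUniformlyOn isOpen_ball hunif
      (fun n x hx => h.hasFDerivAt_f (by simpa using hx) n)
      (fun x hx => hL x (by simpa using hx)) (by simpa using hx)
  have hcontA : ∀ n, ContinuousOn (fun x => A R n x) (ball 0 ρ) := by
    have hcontit : ∀ n, ContinuousOn (R^[n]) (ball 0 ρ) := fun n x hx =>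
      (h.hasFDerivAt_iter (by simpa using hx) n).continuousAt.continuousWithinAt
    intro n
    induction n with
    | zero => simpa [A, B] using continuousOn_const
    | succ n ih =>
      have h1 : ContinuousOn (fun x => fderiv ℂ R (R^[n] x)) (ball 0 ρ) :=
        h.cont.comp (hcontit n) (fun x hx => by
          simpa using h.iter_lt (by simpa using hx) n)
      have h2 : ContinuousOn (fun x => ((2 : ℂ) • fderiv ℂ R (R^[n] x)).comp (A R n x))
          (ball 0 ρ) := (h1.const_smul (2 : ℂ)).clm_comp ih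
      exact h2.congr (fun x _ => A_succ n x)
  have hA'cont : ContinuousOn A' (ball 0 ρ) :=
    hunif.continuousOn (Eventually.of_forall hcontA).frequently
  refine ⟨L, ?_, ?_, ?_, hL⟩
  · have h1 : ContDiffOn ℂ (0 + 1) L (ball 0 ρ) := by
      rw [contDiffOn_succ_iff_fderiv_of_isOpen isOpen_ball]
      refine ⟨fun x hx => (hder x (by simpa using hx)).differentiableAt.differentiableWithinAt,
        fun h => absurd h (by simp), ?_⟩
      rw [contDiffOn_zero]
      exact hA'cont.congr (fun x hx => (hder x (by simpa using hx)).fderiv)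
    simpa using h1
  · have h1 := hder 0 (by simpa using h.ρ_pos)
    have h2 : A' 0 = ContinuousLinearMap.id ℂ E := by
      simp [A', h.B_zero_point]
    rwa [h2] at h1
  · have hR0 : R 0 = 0 := by
      have := h.small 0 (by simpa using h.ρ_pos)
      simpa using this
    have hit : ∀ n, R^[n] 0 = 0 := fun n => Function.iterate_fixed hR0 n
    simp [L, hit, hR0]

end Contr

end Pool.Agent.Work.MP_970e75_an.LX
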