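import Mathlib
import Pool.Agent.Work.MP_970e75_an_helper72.Koenigs

/-!
Local coordinates at the unit of a complex Lie group: multiplication, squaring and the small
square root in the chart.
-/

set_option autoImplicit false

namespace Pool.Agent.Work.MP_970e75_an.LX

open Filter Topology Set Metric
open scoped Manifold ContDiff Topology

section Taylor

variable {F F' : Type*} [NormedAddCommGroup F] [NormedSpace ℂ F] [NormedAddCommGroup F']
  [NormedSpace ℂ F']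

/-- Second order Taylor estimate. -/
theorem taylor_two {f : F → F'} (hf : ContDiffAt ℂ 2 f 0) :
    ∃ C : ℝ, 0 ≤ C ∧ ∀ᶠ z in 𝓝 (0 : F), ‖f z - f 0 - fderiv ℂ f 0 z‖ ≤ C * ‖z‖ ^ 2 := by
  have h1 : ContDiffAt ℂ 1 (fderiv ℂ f) 0 := hf.fderiv_right (by norm_num)
  have h2 : DifferentiableAt ℂ (fderiv ℂ f) 0 := h1.differentiableAt (by norm_num)
  obtain ⟨C, hC⟩ := h2.isBigO_sub.bound
  have h3 : ∀ᶠ z in 𝓝 (0 : F), DifferentiableAt ℂ f z := by
    have h4 := hf.eventually (by simp)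
    filter_upwards [h4] with z hz
    exact hz.differentiableAt (by norm_num)
  obtain ⟨ε, hε, hball⟩ := Metric.eventually_nhds_iff_ball.1 (hC.and h3)
  refine ⟨max C 0, le_max_right _ _, ?_⟩
  filter_upwards [Metric.ball_mem_nhds (0 : F) hε] with z hz
  have hz' : ‖z‖ < ε := by simpa using hz
  have hsub : closedBall (0 : F) ‖z‖ ⊆ ball 0 ε := closedBall_subset_ball hz'
  have h5 := (convex_closedBall (0 : F) ‖z‖).norm_image_sub_le_of_norm_fderiv_le' (𝕜 := ℂ)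
    (f := f) (φ := fderiv ℂ f 0) (C := max C 0 * ‖z‖) (x := 0) (y := z)
    (fun x hx => (hball x (hsub hx)).2) (fun x hx => ?_) (by simp) (by simp)
  · rw [sub_zero] at h5
    calc ‖f z - f 0 - fderiv ℂ f 0 z‖ ≤ max C 0 * ‖z‖ * ‖z‖ := h5
      _ = max C 0 * ‖z‖ ^ 2 := by ring
  · have h6 := (hball x (hsub hx)).1
    rw [sub_zero] at h6
    have h7 : ‖x‖ ≤ ‖z‖ := by simpa using hx
    calc ‖fderiv ℂ f x - fderiv ℂ f 0‖ ≤ C * ‖x‖ := h6
      _ ≤ max C 0 * ‖x‖ := mul_le_mul_of_nonneg_right (le_max_left _ _) (norm_nonneg _)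
      _ ≤ max C 0 * ‖z‖ := mul_le_mul_of_nonneg_left h7 (le_max_right _ _)

end Taylor

variable {E : Type} [NormedAddCommGroup E] [NormedSpace ℂ E] {G : Type}
    [TopologicalSpace G] [ChartedSpace E G] [Group G]

/-- The coordinate of `g` in the chart at `1`, translated so that `1` has coordinate `0`. -/
noncomputable def lc (E : Type) [NormedAddCommGroup E] [NormedSpace ℂ E] {G : Type}
    [TopologicalSpace G] [ChartedSpace E G] [Group G] (g : G) : E :=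
  extChartAt 𝓘(ℂ, E) (1 : G) g - extChartAt 𝓘(ℂ, E) (1 : G) 1

/-- The inverse of `lc`. -/
noncomputable def lcs (G : Type) {E : Type} [NormedAddCommGroup E] [NormedSpace ℂ E]
    [TopologicalSpace G] [ChartedSpace E G] [Group G] (x : E) : G :=
  (extChartAt 𝓘(ℂ, E) (1 : G)).symm (x + extChartAt 𝓘(ℂ, E) (1 : G) 1)

theorem lc_one : lc E (1 : G) = 0 := by simp [lc]

theorem lcs_zero : lcs G (0 : E) = 1 := by simp [lcs]

theorem lc_lcs {x : E}
    (hx : x + extChartAt 𝓘(ℂ, E) (1 : G) 1 ∈ (extChartAt 𝓘(ℂ, E) (1 : G)).target) :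
    lc E (lcs G x) = x := by
  simp only [lc, lcs]
  rw [(extChartAt 𝓘(ℂ, E) (1 : G)).right_inv hx]
  simp

theorem lcs_lc {g : G} (hg : g ∈ (extChartAt 𝓘(ℂ, E) (1 : G)).source) :
    lcs G (lc E g) = g := by
  simp only [lc, lcs, sub_add_cancel]
  exact (extChartAt 𝓘(ℂ, E) (1 : G)).left_inv hg

theorem eventually_target :
    ∀ᶠ x in 𝓝 (0 : E),
      x + extChartAt 𝓘(ℂ, E) (1 : G) 1 ∈ (extChartAt 𝓘(ℂ, E) (1 : G)).target := by
  have h1 : (extChartAt 𝓘(ℂ, E) (1 : G)).target ∈ 𝓝 (extChartAt 𝓘(ℂ, E) (1 : G) 1) :=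
    extChartAt_target_mem_nhds (1 : G)
  have h2 : Tendsto (fun x : E => x + extChartAt 𝓘(ℂ, E) (1 : G) 1) (𝓝 0)
      (𝓝 (extChartAt 𝓘(ℂ, E) (1 : G) 1)) := by
    have : Continuous (fun x : E => x + extChartAt 𝓘(ℂ, E) (1 : G) 1) := by fun_prop
    simpa using this.tendsto 0
  exact h2.eventually h1

theorem eventually_source : ∀ᶠ g in 𝓝 (1 : G), g ∈ (extChartAt 𝓘(ℂ, E) (1 : G)).source :=
  extChartAt_source_mem_nhds (1 : G)

section Smooth

variable [LieGroup 𝓘(ℂ, E) ω G]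

theorem contMDiffAt_lcs {x : E}
    (hx : x + extChartAt 𝓘(ℂ, E) (1 : G) 1 ∈ (extChartAt 𝓘(ℂ, E) (1 : G)).target) :
    ContMDiffAt 𝓘(ℂ, E) 𝓘(ℂ, E) ω (lcs G : E → G) x := by
  have : IsManifold 𝓘(ℂ, E) ω G := inferInstance
  have h1 : ContMDiffAt 𝓘(ℂ, E) 𝓘(ℂ, E) ω ((extChartAt 𝓘(ℂ, E) (1 : G)).symm)
      (x + extChartAt 𝓘(ℂ, E) (1 : G) 1) :=
    (contMDiffOn_extChartAt_symm (1 : G)).contMDiffAt
      ((isOpen_extChartAt_target (1 : G)).mem_nhds hx)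
  have h2 : ContMDiffAt 𝓘(ℂ, E) 𝓘(ℂ, E) ω (fun x : E => x + extChartAt 𝓘(ℂ, E) (1 : G) 1) x := by
    rw [contMDiffAt_iff_contDiffAt]
    fun_prop
  exact ContMDiffAt.comp x h1 h2

theorem contMDiffAt_lc {g : G} (hg : g ∈ (extChartAt 𝓘(ℂ, E) (1 : G)).source) :
    ContMDiffAt 𝓘(ℂ, E) 𝓘(ℂ, E) ω (lc E : G → E) g := by
  have : IsManifold 𝓘(ℂ, E) ω G := inferInstance
  have hg' : g ∈ (chartAt E (1 : G)).source := by rwa [← extChartAt_source 𝓘(ℂ, E)]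
  have h1 : ContMDiffAt 𝓘(ℂ, E) 𝓘(ℂ, E) ω (extChartAt 𝓘(ℂ, E) (1 : G)) g :=
    contMDiffAt_extChartAt' hg'
  have h2 : ContMDiffAt 𝓘(ℂ, E) 𝓘(ℂ, E) ω (fun x : E => x - extChartAt 𝓘(ℂ, E) (1 : G) 1)
      (extChartAt 𝓘(ℂ, E) (1 : G) g) := by
    rw [contMDiffAt_iff_contDiffAt]
    fun_prop
  exact ContMDiffAt.comp g h2 h1

theorem eventually_lc_small {ε : ℝ} (hε : 0 < ε) :
    ∀ᶠ g in 𝓝 (1 : G), g ∈ (extChartAt 𝓘(ℂ, E) (1 : G)).source ∧ lcs G (lc E g) = g ∧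
      ‖lc E g‖ < ε := by
  have h1 : ContinuousAt (lc E : G → E) 1 :=
    (contMDiffAt_lc (mem_extChartAt_source (1 : G))).continuousAt
  have h2 : ∀ᶠ g in 𝓝 (1 : G), ‖lc E g‖ < ε := by
    have h3 : Tendsto (fun g : G => ‖lc E g‖) (𝓝 1) (𝓝 ‖lc E (1 : G)‖) := h1.norm
    rw [lc_one, norm_zero] at h3
    exact h3.eventually (gt_mem_nhds hε)
  filter_upwards [h2, eventually_source (E := E) (G := G)] with g hg hs
  exact ⟨hs, lcs_lc hs, hg⟩

end Smooth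

end Pool.Agent.Work.MP_970e75_an.LX
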