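import Mathlib
import Pool.Agent.Work.MP_970e75_an_helper72.Local

/-!
Multiplication and square root in the chart at the unit of a complex Lie group.
-/

set_option autoImplicit false

namespace Pool.Agent.Work.MP_970e75_an.LX

open Filter Topology Set Metric
open scoped Manifold ContDiff Topology

variable {E : Type} [NormedAddCommGroup E] [NormedSpace ℂ E] {G : Type}
    [TopologicalSpace G] [ChartedSpace E G] [Group G] [LieGroup 𝓘(ℂ, E) ω G]

/-- Multiplication in the chart. -/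
noncomputable def lM (G : Type) {E : Type} [NormedAddCommGroup E] [NormedSpace ℂ E]
    [TopologicalSpace G] [ChartedSpace E G] [Group G] (p : E × E) : E :=
  lc E (lcs G p.1 * lcs G p.2)

theorem contMDiffAt_lcs_fst {p : E × E}
    (hx : p.1 + extChartAt 𝓘(ℂ, E) (1 : G) 1 ∈ (extChartAt 𝓘(ℂ, E) (1 : G)).target) :
    ContMDiffAt 𝓘(ℂ, E × E) 𝓘(ℂ, E) ω (fun p : E × E => (lcs G p.1 : G)) p := by
  have h1 : ContMDiffAt 𝓘(ℂ, E × E) 𝓘(ℂ, E) ω (fun p : E × E => p.1) p := by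
    rw [contMDiffAt_iff_contDiffAt]; fun_prop
  exact ContMDiffAt.comp (g := (lcs G : E → G)) (f := fun p : E × E => p.1) p
    (contMDiffAt_lcs hx) h1

theorem contMDiffAt_lcs_snd {p : E × E}
    (hx : p.2 + extChartAt 𝓘(ℂ, E) (1 : G) 1 ∈ (extChartAt 𝓘(ℂ, E) (1 : G)).target) :
    ContMDiffAt 𝓘(ℂ, E × E) 𝓘(ℂ, E) ω (fun p : E × E => (lcs G p.2 : G)) p := by
  have h1 : ContMDiffAt 𝓘(ℂ, E × E) 𝓘(ℂ, E) ω (fun p : E × E => p.2) p := by
    rw [contMDiffAt_iff_contDiffAt]; fun_prop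
  exact ContMDiffAt.comp (g := (lcs G : E → G)) (f := fun p : E × E => p.2) p
    (contMDiffAt_lcs hx) h1

omit [LieGroup 𝓘(ℂ, E) ω G] in
theorem zero_target :
    (0 : E) + extChartAt 𝓘(ℂ, E) (1 : G) 1 ∈ (extChartAt 𝓘(ℂ, E) (1 : G)).target := by
  rw [zero_add]; exact mem_extChartAt_target (1 : G)

theorem contMDiffAt_lcs_mul :
    ContMDiffAt 𝓘(ℂ, E × E) 𝓘(ℂ, E) ω (fun p : E × E => (lcs G p.1 * lcs G p.2 : G)) 0 := by
  exact (contMDiffAt_lcs_fst (p := (0 : E × E)) zero_target).mul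
    (contMDiffAt_lcs_snd (p := (0 : E × E)) zero_target)

theorem contDiffAt_lM : ContDiffAt ℂ ω (lM G : E × E → E) 0 := by
  rw [← contMDiffAt_iff_contDiffAt]
  have h1 : ContMDiffAt 𝓘(ℂ, E) 𝓘(ℂ, E) ω (lc E : G → E)
      (lcs G ((0 : E × E).1) * lcs G ((0 : E × E).2)) := by
    apply contMDiffAt_lc
    simp only [Prod.fst_zero, Prod.snd_zero, lcs_zero, mul_one]
    exact mem_extChartAt_source (1 : G)
  exact ContMDiffAt.comp (0 : E × E) h1 contMDiffAt_lcs_mul

omit [LieGroup 𝓘(ℂ, E) ω G] in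
theorem lM_zero : lM G (0 : E × E) = 0 := by
  simp [lM, lcs_zero, lc_one]

theorem fderiv_lM : fderiv ℂ (lM G : E × E → E) 0 =
    ContinuousLinearMap.fst ℂ E E + ContinuousLinearMap.snd ℂ E E := by
  have hd : HasFDerivAt (lM G : E × E → E) (fderiv ℂ (lM G : E × E → E) 0) 0 :=
    (contDiffAt_lM.differentiableAt (by simp)).hasFDerivAt
  have h1 : (fderiv ℂ (lM G : E × E → E) 0).comp (ContinuousLinearMap.inl ℂ E E) =
      ContinuousLinearMap.id ℂ E := by
    have h2 : HasFDerivAt (fun x : E => lM G ((x, 0) : E × E))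
        ((fderiv ℂ (lM G : E × E → E) 0).comp (ContinuousLinearMap.inl ℂ E E)) 0 := by
      have h3 : HasFDerivAt (fun x : E => ((x, 0) : E × E)) (ContinuousLinearMap.inl ℂ E E) 0 :=
        (ContinuousLinearMap.inl ℂ E E).hasFDerivAt
      exact HasFDerivAt.comp (0 : E) (f := fun x : E => ((x, 0) : E × E)) hd h3
    have h4 : (fun x : E => lM G ((x, 0) : E × E)) =ᶠ[𝓝 0] fun x => x := by
      filter_upwards [eventually_target (E := E) (G := G)] with x hx
      simp only [lM, lcs_zero, mul_one]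
      exact lc_lcs hx
    exact (h2.congr_of_eventuallyEq h4.symm).unique (hasFDerivAt_id (0 : E))
  have h2 : (fderiv ℂ (lM G : E × E → E) 0).comp (ContinuousLinearMap.inr ℂ E E) =
      ContinuousLinearMap.id ℂ E := by
    have h2 : HasFDerivAt (fun x : E => lM G ((0, x) : E × E))
        ((fderiv ℂ (lM G : E × E → E) 0).comp (ContinuousLinearMap.inr ℂ E E)) 0 := by
      have h3 : HasFDerivAt (fun x : E => ((0, x) : E × E)) (ContinuousLinearMap.inr ℂ E E) 0 :=
        (ContinuousLinearMap.inr ℂ E E).hasFDerivAt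
      exact HasFDerivAt.comp (0 : E) (f := fun x : E => ((0, x) : E × E)) hd h3
    have h4 : (fun x : E => lM G ((0, x) : E × E)) =ᶠ[𝓝 0] fun x => x := by
      filter_upwards [eventually_target (E := E) (G := G)] with x hx
      simp only [lM, lcs_zero, one_mul]
      exact lc_lcs hx
    exact (h2.congr_of_eventuallyEq h4.symm).unique (hasFDerivAt_id (0 : E))
  ext p
  · have h3 := DFunLike.congr_fun h1 p
    simpa using h3
  · have h3 := DFunLike.congr_fun h2 p
    simpa using h3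

/-- Multiplication of small elements. -/
theorem eventually_mul : ∃ C : ℝ, 0 ≤ C ∧ ∀ᶠ p in 𝓝 (0 : E × E),
    lcs G p.1 * lcs G p.2 = lcs G (lM G p) ∧ ‖lM G p - (p.1 + p.2)‖ ≤ C * ‖p‖ ^ 2 := by
  obtain ⟨C, hC, h1⟩ := taylor_two (contDiffAt_lM (E := E) (G := G) |>.of_le (by simp))
  refine ⟨C, hC, ?_⟩
  have h2 : ContinuousAt (fun p : E × E => (lcs G p.1 * lcs G p.2 : G)) 0 :=
    contMDiffAt_lcs_mul.continuousAt
  have h3 : Tendsto (fun p : E × E => (lcs G p.1 * lcs G p.2 : G)) (𝓝 0) (𝓝 1) := by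
    simpa [ContinuousAt, lcs_zero] using h2
  filter_upwards [h1, h3.eventually (eventually_source (E := E) (G := G))] with p hp hs
  refine ⟨(lcs_lc hs).symm, ?_⟩
  rw [fderiv_lM, lM_zero, sub_zero] at hp
  simpa using hp

theorem tendsto_lcs : Tendsto (lcs G : E → G) (𝓝 0) (𝓝 1) := by
  have h := (contMDiffAt_lcs (E := E) (G := G) zero_target).continuousAt
  simpa [ContinuousAt, lcs_zero] using h

theorem eventually_conj {ε : ℝ} (hε : 0 < ε) : ∀ᶠ p in 𝓝 (0 : E × E),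
    ∃ w : E, ‖w‖ < ε ∧ lcs G p.2 * lcs G p.1 * (lcs G p.2)⁻¹ = lcs G w := by
  have : IsTopologicalGroup G := topologicalGroup_of_lieGroup 𝓘(ℂ, E) ω
  have h1 : Tendsto (fun p : E × E => (lcs G p.1 : G)) (𝓝 0) (𝓝 1) :=
    tendsto_lcs.comp (by simpa using (continuous_fst (X := E) (Y := E)).tendsto 0)
  have h2 : Tendsto (fun p : E × E => (lcs G p.2 : G)) (𝓝 0) (𝓝 1) :=
    tendsto_lcs.comp (by simpa using (continuous_snd (X := E) (Y := E)).tendsto 0)
  have h3 : Tendsto (fun p : E × E => (lcs G p.2 * lcs G p.1 * (lcs G p.2)⁻¹ : G)) (𝓝 0)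
      (𝓝 1) := by
    simpa using (h2.mul h1).mul h2.inv
  filter_upwards [h3.eventually (eventually_lc_small (E := E) (G := G) hε)] with p hp
  exact ⟨_, hp.2.2, hp.2.1.symm⟩

theorem eventually_inv {ε : ℝ} (hε : 0 < ε) : ∀ᶠ x in 𝓝 (0 : E),
    ∃ w : E, ‖w‖ < ε ∧ (lcs G x : G)⁻¹ = lcs G w := by
  have : IsTopologicalGroup G := topologicalGroup_of_lieGroup 𝓘(ℂ, E) ω
  have h3 : Tendsto (fun x : E => (lcs G x : G)⁻¹) (𝓝 0) (𝓝 1) := by
    simpa using (tendsto_lcs (E := E) (G := G)).inv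
  filter_upwards [h3.eventually (eventually_lc_small (E := E) (G := G) hε)] with p hp
  exact ⟨_, hp.2.2, hp.2.1.symm⟩

/-- The square root map. -/
theorem exists_sqrt [CompleteSpace E] : ∃ (R : E → E) (ρ C : ℝ), Contr R ρ C ∧
    (∀ x : E, ‖x‖ < ρ →
      x + extChartAt 𝓘(ℂ, E) (1 : G) 1 ∈ (extChartAt 𝓘(ℂ, E) (1 : G)).target) ∧
    (∀ x : E, ‖x‖ < ρ → lcs G (R x) * lcs G (R x) = lcs G x) ∧
    (∀ x y : E, ‖x‖ < ρ → ‖y‖ < ρ → lcs G y * lcs G y = lcs G x → y = R x) := by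
  let P : E → E := fun x => lM G ((x, x) : E × E)
  have hdiag : HasFDerivAt (fun x : E => ((x, x) : E × E))
      ((ContinuousLinearMap.id ℂ E).prod (ContinuousLinearMap.id ℂ E)) 0 :=
    (hasFDerivAt_id (0 : E)).prodMk (hasFDerivAt_id (0 : E))
  have hP : ContDiffAt ℂ ω P 0 := by
    have h1 : ContDiffAt ℂ ω (fun x : E => ((x, x) : E × E)) 0 := by fun_prop
    exact ContDiffAt.comp (0 : E) (g := lM G) (f := fun x : E => ((x, x) : E × E))
      contDiffAt_lM h1
  let e2 : E ≃L[ℂ] E := ContinuousLinearEquiv.equivOfInverse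
    ((2 : ℂ) • ContinuousLinearMap.id ℂ E) ((1 / 2 : ℂ) • ContinuousLinearMap.id ℂ E)
    (fun x => by simp [smul_smul]) (fun x => by simp [smul_smul])
  have hP' : HasFDerivAt P (e2 : E →L[ℂ] E) 0 := by
    have h1 : HasFDerivAt (lM G : E × E → E)
        (ContinuousLinearMap.fst ℂ E E + ContinuousLinearMap.snd ℂ E E) 0 := by
      rw [← fderiv_lM (G := G)]
      exact (contDiffAt_lM.differentiableAt (by simp)).hasFDerivAt
    have h2 := HasFDerivAt.comp (0 : E) (f := fun x : E => ((x, x) : E × E)) h1 hdiag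
    convert! h2 using 1
    ext x
    simp [e2, two_smul]
  have hP0 : P 0 = 0 := by
    show lM G ((0, 0) : E × E) = 0
    exact lM_zero
  let H := hP.toOpenPartialHomeomorph P hP' (by simp)
  have hHsource : (0 : E) ∈ H.source := hP.mem_toOpenPartialHomeomorph_source hP' (by simp)
  have hHtarget : (0 : E) ∈ H.target := by
    have := hP.image_mem_toOpenPartialHomeomorph_target hP' (by simp)
    rwa [hP0] at this
  let R : E → E := H.symm
  have hR0 : R 0 = 0 := by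
    have h1 : H.symm (H 0) = 0 := H.left_inv hHsource
    have h2 : H 0 = 0 := hP0
    rw [h2] at h1
    exact h1
  have hRc : ContDiffAt ℂ ω R 0 := by
    have := hP.to_localInverse hP' (by simp)
    rw [hP0] at this
    exact this
  have hPR : ∀ᶠ x in 𝓝 (0 : E), P (R x) = x := H.eventually_right_inverse hHtarget
  have hRP : ∀ᶠ x in 𝓝 (0 : E), R (P x) = x := H.eventually_left_inverse hHsource
  have hRcont : Tendsto R (𝓝 0) (𝓝 0) := by
    have := hRc.continuousAt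
    simpa [ContinuousAt, hR0] using this
  have hRd : HasFDerivAt R (fderiv ℂ R 0) 0 := (hRc.differentiableAt (by simp)).hasFDerivAt
  have hR2 : (2 : ℂ) • fderiv ℂ R 0 = ContinuousLinearMap.id ℂ E := by
    have h1 : HasFDerivAt (P ∘ R) ((e2 : E →L[ℂ] E).comp (fderiv ℂ R 0)) 0 := by
      apply HasFDerivAt.comp (0 : E) _ hRd
      rw [hR0]; exact hP'
    have h2 : HasFDerivAt (P ∘ R) (ContinuousLinearMap.id ℂ E) 0 :=
      (hasFDerivAt_id (0 : E)).congr_of_eventuallyEq (hPR.mono fun x hx => hx)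
    have h3 := h1.unique h2
    rw [← h3]
    ext x
    simp [e2]
  have hR2' : fderiv ℂ R 0 = (1 / 2 : ℂ) • ContinuousLinearMap.id ℂ E := by
    rw [← hR2, smul_smul]; norm_num
  have hRc2 : ContDiffAt ℂ 2 R 0 := hRc.of_le (by simp)
  obtain ⟨C₁, hC₁, hT⟩ := taylor_two hRc2
  have hRf : ContDiffAt ℂ 1 (fderiv ℂ R) 0 := hRc2.fderiv_right (by norm_num)
  obtain ⟨C₂, hC₂⟩ := (hRf.differentiableAt (by norm_num)).isBigO_sub.bound
  have hev : ∀ᶠ x in 𝓝 (0 : E), ContDiffAt ℂ 2 R x := hRc2.eventually (by simp)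
  -- squares
  have hsq : ∀ᶠ x in 𝓝 (0 : E), lcs G (R x) * lcs G (R x) = lcs G x := by
    obtain ⟨C, hC, hmul⟩ := eventually_mul (E := E) (G := G)
    have h1 : Tendsto (fun x : E => ((R x, R x) : E × E)) (𝓝 0) (𝓝 0) := by
      exact hRcont.prodMk_nhds hRcont
    filter_upwards [h1.eventually hmul, hPR] with x hx hx'
    rw [hx.1]
    exact congrArg (lcs G) hx'
  obtain ⟨ρ, hρ, hball⟩ := Metric.eventually_nhds_iff_ball.1
    (hsq.and (hRP.and (hT.and (hC₂.and (hev.and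
      ((eventually_target (E := E) (G := G)).and
      (Metric.ball_mem_nhds (0 : E) (show (0 : ℝ) < 1 / (6 * (C₁ + 1)) by positivity))))))))
  refine ⟨R, ρ, max (2 * C₁) (2 * C₂), ⟨hρ, ?_, ?_, ?_, ?_, ?_, ?_⟩, ?_, ?_, ?_⟩
  · exact le_max_of_le_left (by positivity)
  · intro x hx
    obtain ⟨-, -, h1, -, -, -, h2⟩ := hball x (by simpa using hx)
    rw [hR0, sub_zero, hR2'] at h1
    have h2' : ‖x‖ < 1 / (6 * (C₁ + 1)) := by simpa using h2
    have h3 : C₁ * ‖x‖ ≤ 1 / 6 := by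
      have h4 : C₁ * ‖x‖ ≤ (C₁ + 1) * (1 / (6 * (C₁ + 1))) :=
        mul_le_mul (by linarith) h2'.le (norm_nonneg _) (by linarith)
      have h5 : (C₁ + 1) * (1 / (6 * (C₁ + 1))) = 1 / 6 := by field_simp
      linarith
    have h6 : ‖R x‖ ≤ ‖R x - ((1 / 2 : ℂ) • ContinuousLinearMap.id ℂ E) x‖ +
        ‖((1 / 2 : ℂ) • ContinuousLinearMap.id ℂ E) x‖ := by
      simpa using norm_add_le (R x - ((1 / 2 : ℂ) • ContinuousLinearMap.id ℂ E) x)
        (((1 / 2 : ℂ) • ContinuousLinearMap.id ℂ E) x)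
    have h7 : ‖((1 / 2 : ℂ) • ContinuousLinearMap.id ℂ E) x‖ = 1 / 2 * ‖x‖ := by
      simp [norm_smul]
    nlinarith [norm_nonneg x, mul_le_mul_of_nonneg_right h3 (norm_nonneg x)]
  · intro x hx
    obtain ⟨-, -, h1, -, -, -, -⟩ := hball x (by simpa using hx)
    rw [hR0, sub_zero, hR2'] at h1
    have h2 : (2 : ℂ) • R x - x = (2 : ℂ) • (R x - ((1 / 2 : ℂ) • ContinuousLinearMap.id ℂ E) x) := by
      simp [smul_sub, smul_smul]
    rw [h2, norm_smul]
    have h3 : ‖(2 : ℂ)‖ = 2 := by simp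
    rw [h3]
    calc 2 * ‖R x - ((1 / 2 : ℂ) • ContinuousLinearMap.id ℂ E) x‖ ≤ 2 * (C₁ * ‖x‖ ^ 2) := by
          linarith
      _ = 2 * C₁ * ‖x‖ ^ 2 := by ring
      _ ≤ max (2 * C₁) (2 * C₂) * ‖x‖ ^ 2 :=
          mul_le_mul_of_nonneg_right (le_max_left _ _) (by positivity)
  · intro x hx
    obtain ⟨-, -, -, -, h1, -, -⟩ := hball x (by simpa using hx)
    exact h1.differentiableAt (by norm_num)
  · intro x hx
    obtain ⟨-, -, -, h1, -, -, -⟩ := hball x (by simpa using hx)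
    rw [sub_zero] at h1
    rw [← hR2, ← smul_sub, norm_smul]
    have h3 : ‖(2 : ℂ)‖ = 2 := by simp
    rw [h3]
    calc 2 * ‖fderiv ℂ R x - fderiv ℂ R 0‖ ≤ 2 * (C₂ * ‖x‖) := by linarith
      _ = 2 * C₂ * ‖x‖ := by ring
      _ ≤ max (2 * C₁) (2 * C₂) * ‖x‖ :=
          mul_le_mul_of_nonneg_right (le_max_right _ _) (norm_nonneg _)
  · intro x hx
    obtain ⟨-, -, -, -, h1, -, -⟩ := hball x (by simpa using hx)
    exact (h1.fderiv_right (m := 1) (by norm_num)).continuousAt.continuousWithinAt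
  · intro x hx
    exact (hball x (by simpa using hx)).2.2.2.2.2.1
  · intro x hx
    exact (hball x (by simpa using hx)).1
  · intro x y hx hy hxy
    have h1 := (hball y (by simpa using hy)).2.1
    have h2 := (hball x (by simpa using hx)).2.2.2.2.2.1
    have h3 : P y = x := by
      show lc E (lcs G y * lcs G y) = x
      rw [hxy, lc_lcs h2]
    rw [h3] at h1
    exact h1.symm

end Pool.Agent.Work.MP_970e75_an.LX
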