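import Mathlib
import Pool.Agent.Work.MP_970e75_an_helper72.Local2

/-!
The logarithm (Koenigs function of the square root) is additive on small commuting elements.
-/

set_option autoImplicit false

namespace Pool.Agent.Work.MP_970e75_an.LX

open Filter Topology Set Metric
open scoped Manifold ContDiff Topology

variable {E : Type} [NormedAddCommGroup E] [NormedSpace ℂ E] {G : Type}
    [TopologicalSpace G] [ChartedSpace E G] [Group G]

/-- Everything that is needed on small elements of the group. -/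
structure Small (G : Type) {E : Type} [NormedAddCommGroup E] [NormedSpace ℂ E]
    [TopologicalSpace G] [ChartedSpace E G] [Group G] (R : E → E) (ρ C ρ₁ C₁ : ℝ) : Prop where
  contr : Contr R ρ C
  sq : ∀ x : E, ‖x‖ < ρ → lcs G (R x) * lcs G (R x) = lcs G x
  uniq : ∀ x y : E, ‖x‖ < ρ → ‖y‖ < ρ → lcs G y * lcs G y = lcs G x → y = R x
  ρ₁_pos : 0 < ρ₁
  ρ₁_le : ρ₁ ≤ ρ
  mul : ∀ x y : E, ‖x‖ < ρ₁ → ‖y‖ < ρ₁ → lcs G x * lcs G y = lcs G (lM G ((x, y) : E × E))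
  est : ∀ x y : E, ‖x‖ < ρ₁ → ‖y‖ < ρ₁ →
    ‖lM G ((x, y) : E × E) - (x + y)‖ ≤ C₁ * ‖((x, y) : E × E)‖ ^ 2
  lt : ∀ x y : E, ‖x‖ < ρ₁ → ‖y‖ < ρ₁ → ‖lM G ((x, y) : E × E)‖ < ρ
  conj : ∀ x y : E, ‖x‖ < ρ₁ → ‖y‖ < ρ₁ →
    ∃ w : E, ‖w‖ < ρ ∧ lcs G y * lcs G x * (lcs G y)⁻¹ = lcs G w
  C₁_nonneg : 0 ≤ C₁

namespace Small

variable {R : E → E} {ρ C ρ₁ C₁ : ℝ}

theorem R_lt (h : Small G R ρ C ρ₁ C₁) {x : E} (hx : ‖x‖ < ρ₁) : ‖R x‖ < ρ₁ := by
  have h1 := h.contr.small x (hx.trans_le h.ρ₁_le)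
  have := norm_nonneg x
  linarith

theorem iter_lt₁ (h : Small G R ρ C ρ₁ C₁) {x : E} (hx : ‖x‖ < ρ₁) (n : ℕ) :
    ‖R^[n] x‖ < ρ₁ := by
  induction n with
  | zero => exact hx
  | succ n ih => rw [Function.iterate_succ_apply']; exact h.R_lt ih

theorem comm_root (h : Small G R ρ C ρ₁ C₁) {x y : E} (hx : ‖x‖ < ρ₁) (hy : ‖y‖ < ρ₁)
    (hc : Commute (lcs G x) (lcs G y)) : Commute (lcs G (R x)) (lcs G y) := by
  obtain ⟨w, hw, hw'⟩ := h.conj (R x) y (h.R_lt hx) hy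
  have h1 : lcs G w * lcs G w = lcs G x := by
    rw [← hw']
    have h2 : lcs G y * lcs G (R x) * (lcs G y)⁻¹ * (lcs G y * lcs G (R x) * (lcs G y)⁻¹) =
        lcs G y * (lcs G (R x) * lcs G (R x)) * (lcs G y)⁻¹ := by group
    rw [h2, h.sq x (hx.trans_le h.ρ₁_le), ← hc.eq, mul_inv_cancel_right]
  have h2 : w = R x := h.uniq x w (hx.trans_le h.ρ₁_le) hw h1
  rw [h2] at hw'
  have h3 : lcs G y * lcs G (R x) = lcs G (R x) * lcs G y := by
    rw [mul_inv_eq_iff_eq_mul] at hw'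
    exact hw'
  exact h3.symm

theorem comm_root₂ (h : Small G R ρ C ρ₁ C₁) {x y : E} (hx : ‖x‖ < ρ₁) (hy : ‖y‖ < ρ₁)
    (hc : Commute (lcs G x) (lcs G y)) : Commute (lcs G (R x)) (lcs G (R y)) :=
  (h.comm_root hy (h.R_lt hx) (h.comm_root hx hy hc).symm).symm

theorem R_lM (h : Small G R ρ C ρ₁ C₁) {x y : E} (hx : ‖x‖ < ρ₁) (hy : ‖y‖ < ρ₁)
    (hc : Commute (lcs G x) (lcs G y)) :
    R (lM G ((x, y) : E × E)) = lM G ((R x, R y) : E × E) := by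
  symm
  refine h.uniq _ _ (h.lt x y hx hy) (h.lt _ _ (h.R_lt hx) (h.R_lt hy)) ?_
  rw [← h.mul x y hx hy, ← h.mul _ _ (h.R_lt hx) (h.R_lt hy), ← h.sq x (hx.trans_le h.ρ₁_le),
    ← h.sq y (hy.trans_le h.ρ₁_le)]
  have hc' := (h.comm_root₂ hx hy hc).eq
  calc lcs G (R x) * lcs G (R y) * (lcs G (R x) * lcs G (R y))
      = lcs G (R x) * (lcs G (R y) * lcs G (R x)) * lcs G (R y) := by group
    _ = lcs G (R x) * (lcs G (R x) * lcs G (R y)) * lcs G (R y) := by rw [hc']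
    _ = lcs G (R x) * lcs G (R x) * (lcs G (R y) * lcs G (R y)) := by group

theorem iter_lM (h : Small G R ρ C ρ₁ C₁) {x y : E} (hx : ‖x‖ < ρ₁) (hy : ‖y‖ < ρ₁)
    (hc : Commute (lcs G x) (lcs G y)) (n : ℕ) :
    Commute (lcs G (R^[n] x)) (lcs G (R^[n] y)) ∧
    R^[n] (lM G ((x, y) : E × E)) = lM G ((R^[n] x, R^[n] y) : E × E) := by
  induction n with
  | zero => exact ⟨hc, rfl⟩
  | succ n ih =>
    rw [Function.iterate_succ_apply', Function.iterate_succ_apply', Function.iterate_succ_apply']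
    exact ⟨h.comm_root₂ (h.iter_lt₁ hx n) (h.iter_lt₁ hy n) ih.1, by
      rw [ih.2, h.R_lM (h.iter_lt₁ hx n) (h.iter_lt₁ hy n) ih.1]⟩

/-- The logarithm is additive on small commuting elements. -/
theorem log_add (h : Small G R ρ C ρ₁ C₁) {L : E → E}
    (hL : ∀ x, ‖x‖ < ρ → Tendsto (fun n => (2 : ℂ) ^ n • R^[n] x) atTop (𝓝 (L x)))
    {x y : E} (hx : ‖x‖ < ρ₁) (hy : ‖y‖ < ρ₁) (hc : Commute (lcs G x) (lcs G y)) :
    L (lM G ((x, y) : E × E)) = L x + L y := by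
  have h1 := hL _ (h.lt x y hx hy)
  have h2 := (hL x (hx.trans_le h.ρ₁_le)).add (hL y (hy.trans_le h.ρ₁_le))
  have h3 : Tendsto (fun n : ℕ => (2 : ℂ) ^ n • R^[n] (lM G ((x, y) : E × E)) -
      ((2 : ℂ) ^ n • R^[n] x + (2 : ℂ) ^ n • R^[n] y)) atTop (𝓝 0) := by
    refine squeeze_zero_norm (a := fun n : ℕ => C₁ * ρ₁ ^ 2 * (8 / 9) ^ n) (fun n => ?_) ?_
    · rw [(h.iter_lM hx hy hc n).2, ← smul_add, ← smul_sub, norm_smul, norm_pow]
      have h4 := h.est _ _ (h.iter_lt₁ hx n) (h.iter_lt₁ hy n)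
      have h5 : ‖((R^[n] x, R^[n] y) : E × E)‖ ≤ (2 / 3) ^ n * ρ₁ := by
        rw [Prod.norm_def]
        refine max_le ?_ ?_
        · exact (h.contr.iter_le (hx.trans_le h.ρ₁_le) n).trans
            (mul_le_mul_of_nonneg_left hx.le (by positivity))
        · exact (h.contr.iter_le (hy.trans_le h.ρ₁_le) n).trans
            (mul_le_mul_of_nonneg_left hy.le (by positivity))
      have h6 : ‖(2 : ℂ)‖ = 2 := by simp
      rw [h6]
      calc (2 : ℝ) ^ n * ‖lM G ((R^[n] x, R^[n] y) : E × E) - (R^[n] x + R^[n] y)‖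
          ≤ 2 ^ n * (C₁ * ((2 / 3) ^ n * ρ₁) ^ 2) := by
            refine mul_le_mul_of_nonneg_left (h4.trans ?_) (by positivity)
            exact mul_le_mul_of_nonneg_left (pow_le_pow_left₀ (norm_nonneg _) h5 2) h.C₁_nonneg
        _ = C₁ * ρ₁ ^ 2 * (8 / 9) ^ n := by
            have : (8 / 9 : ℝ) ^ n = 2 ^ n * ((2 / 3) ^ n) ^ 2 := by
              rw [← pow_mul, mul_comm n 2, pow_mul, ← mul_pow]; norm_num
            rw [this]; ring
    · have h7 := (tendsto_pow_atTop_nhds_zero_of_lt_one (r := (8 / 9 : ℝ)) (by norm_num)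
        (by norm_num)).const_mul (C₁ * ρ₁ ^ 2)
      simpa using h7
  have h4 := h1.sub h2
  have h5 := tendsto_nhds_unique h3 h4
  exact (sub_eq_zero.1 h5.symm)

end Small

/-- Small elements exist. -/
theorem exists_small [CompleteSpace E] [LieGroup 𝓘(ℂ, E) ω G] :
    ∃ (R : E → E) (ρ C C₁ : ℝ),
    (∀ x : E, ‖x‖ < ρ →
      x + extChartAt 𝓘(ℂ, E) (1 : G) 1 ∈ (extChartAt 𝓘(ℂ, E) (1 : G)).target) ∧
    ∀ σ : ℝ, 0 < σ → ∃ ρ₁ : ℝ, Small G R ρ C ρ₁ C₁ ∧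
      (∀ x y : E, ‖x‖ < ρ₁ → ‖y‖ < ρ₁ → ‖lM G ((x, y) : E × E)‖ < σ) ∧
      (∀ x y : E, ‖x‖ < ρ₁ → ‖y‖ < ρ₁ → DifferentiableAt ℂ (lM G) ((x, y) : E × E)) := by
  obtain ⟨R, ρ, C, hc, ht, hsq, hu⟩ := exists_sqrt (E := E) (G := G)
  obtain ⟨C₁, hC₁, hmul⟩ := eventually_mul (E := E) (G := G)
  refine ⟨R, ρ, C, C₁, ht, ?_⟩
  intro σ hσ
  have hM : Tendsto (lM G : E × E → E) (𝓝 0) (𝓝 0) := by
    have := (contDiffAt_lM (E := E) (G := G)).continuousAt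
    simpa [ContinuousAt, lM_zero] using this
  have hM' : ∀ᶠ p in 𝓝 (0 : E × E), ‖lM G p‖ < min σ ρ := by
    have h1 : Tendsto (fun p : E × E => ‖lM G p‖) (𝓝 0) (𝓝 0) := by simpa using hM.norm
    exact h1.eventually (gt_mem_nhds (lt_min hσ hc.ρ_pos))
  have hd : ∀ᶠ p in 𝓝 (0 : E × E), DifferentiableAt ℂ (lM G) p := by
    have h1 : ContDiffAt ℂ 1 (lM G : E × E → E) 0 := contDiffAt_lM.of_le (by simp)
    have h2 := h1.eventually (by simp)
    filter_upwards [h2] with p hp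
    exact hp.differentiableAt (by simp)
  obtain ⟨δ, hδ, hball⟩ := Metric.eventually_nhds_iff_ball.1
    (hmul.and (hM'.and ((eventually_conj (E := E) (G := G) hc.ρ_pos).and hd)))
  have hmem : ∀ x y : E, ‖x‖ < min δ ρ → ‖y‖ < min δ ρ → ((x, y) : E × E) ∈ ball (0 : E × E) δ := by
    intro x y hx hy
    rw [mem_ball_zero_iff, Prod.norm_def]
    exact max_lt (hx.trans_le (min_le_left _ _)) (hy.trans_le (min_le_left _ _))
  refine ⟨min δ ρ, ⟨hc, hsq, hu, lt_min hδ hc.ρ_pos, min_le_right _ _, ?_, ?_, ?_, ?_, hC₁⟩, ?_, ?_⟩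
  · intro x y hx hy
    exact (hball _ (hmem x y hx hy)).1.1
  · intro x y hx hy
    exact (hball _ (hmem x y hx hy)).1.2
  · intro x y hx hy
    exact (hball _ (hmem x y hx hy)).2.1.trans_le (min_le_right _ _)
  · intro x y hx hy
    exact (hball _ (hmem x y hx hy)).2.2.1
  · intro x y hx hy
    exact (hball _ (hmem x y hx hy)).2.1.trans_le (min_le_left _ _)
  · intro x y hx hy
    exact (hball _ (hmem x y hx hy)).2.2.2

end Pool.Agent.Work.MP_970e75_an.LX
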