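import Mathlib
import Pool.Agent.Work.MP_970e75_an_helper72.LogAdd
import Pool.Agent.Work.MP_970e75_an.Full.Interface

/-!
The local exponential map of a complex Lie group.
-/

set_option autoImplicit false

namespace Pool.Agent.Work.MP_970e75_an.LX

open Filter Topology Set Metric
open scoped Manifold ContDiff Topology

variable {E : Type} [NormedAddCommGroup E] [NormedSpace ℂ E] {G : Type}
    [TopologicalSpace G] [ChartedSpace E G] [Group G]

/-- Local exponential map `e` and logarithm `l` of a complex Lie group. -/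
structure ExpLog (E : Type) [NormedAddCommGroup E] [NormedSpace ℂ E] (G : Type)
    [TopologicalSpace G] [ChartedSpace E G] [Group G] where
  r : ℝ
  e : E → G
  l : G → E
  U : Set G
  r_pos : 0 < r
  e_zero : e 0 = 1
  e_hol : MDifferentiableOn 𝓘(ℂ, E) 𝓘(ℂ, E) e (ball 0 r)
  e_deriv : HasFDerivAt (fun X => lc E (e X)) (ContinuousLinearMap.id ℂ E) 0
  U_open : IsOpen U
  one_mem : (1 : G) ∈ U
  l_hol : MDifferentiableOn 𝓘(ℂ, E) 𝓘(ℂ, E) l U
  l_lt : ∀ g ∈ U, ‖l g‖ < r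
  e_l : ∀ g ∈ U, e (l g) = g
  e_mem : ∀ X, ‖X‖ < r → e X ∈ U
  l_e : ∀ X, ‖X‖ < r → l (e X) = X
  add_of_comm : ∀ X Y, ‖X‖ < r → ‖Y‖ < r → Commute (e X) (e Y) → e (X + Y) = e X * e Y
  neg : ∀ X, ‖X‖ < r → e (-X) = (e X)⁻¹
  comm_smul : ∀ (X : E) (s t : ℂ), ‖s • X‖ < r → ‖t • X‖ < r → Commute (e (s • X)) (e (t • X))

omit [Group G] in
/-- Two continuous maps which agree at rational points agree. -/
theorem eq_of_rat [T2Space G] {f g : ℝ → G} {s : ℝ} (hf : ContinuousAt f s)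
    (hg : ContinuousAt g s) (h : ∀ᶠ x in 𝓝 s, ∀ q : ℚ, (q : ℝ) = x → f q = g q) :
    f s = g s := by
  have : (comap (Rat.cast : ℚ → ℝ) (𝓝 s)).NeBot := Rat.isDenseEmbedding_coe_real.comap_nhds_neBot s
  have h1 : Tendsto (fun q : ℚ => f q) (comap (Rat.cast : ℚ → ℝ) (𝓝 s)) (𝓝 (f s)) :=
    hf.tendsto.comp tendsto_comap
  have h2 : Tendsto (fun q : ℚ => g q) (comap (Rat.cast : ℚ → ℝ) (𝓝 s)) (𝓝 (g s)) :=
    hg.tendsto.comp tendsto_comap
  refine tendsto_nhds_unique_of_eventuallyEq h1 h2 ?_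
  exact (tendsto_comap.eventually h).mono (fun q hq => hq q rfl)

/-- Identity theorem: a holomorphic function on a ball vanishing at real points vanishes. -/
theorem eq_zero_of_real {F : Type*} [NormedAddCommGroup F] [NormedSpace ℂ F] [CompleteSpace F]
    {D : Set ℂ} (hD : IsOpen D) (hD' : IsPreconnected D) (h0 : (0 : ℂ) ∈ D) {f : ℂ → F}
    (hf : DifferentiableOn ℂ f D) (h : ∀ x : ℝ, (x : ℂ) ∈ D → f x = 0) :
    ∀ z ∈ D, f z = 0 := by
  have h1 : AnalyticOnNhd ℂ f D := hf.analyticOnNhd hD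
  refine h1.eqOn_zero_of_preconnected_of_frequently_eq_zero hD' h0 ?_
  have h2 : Tendsto (fun n : ℕ => ((1 / ((n : ℝ) + 1) : ℝ) : ℂ)) atTop (𝓝[≠] 0) := by
    rw [tendsto_nhdsWithin_iff]
    constructor
    · have h3 := tendsto_one_div_add_atTop_nhds_zero_nat (𝕜 := ℝ)
      have h4 := (Complex.continuous_ofReal.tendsto 0).comp h3
      simpa [Function.comp_def] using h4
    · refine Eventually.of_forall (fun n => ?_)
      simp only [mem_compl_iff, mem_singleton_iff, Complex.ofReal_eq_zero]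
      positivity
  refine h2.frequently (Eventually.frequently ?_)
  have h3 : ∀ᶠ n : ℕ in atTop, ((1 / ((n : ℝ) + 1) : ℝ) : ℂ) ∈ D :=
    (h2.mono_right nhdsWithin_le_nhds).eventually (hD.mem_nhds h0)
  exact h3.mono (fun n hn => h _ hn)

theorem exists_expLog [CompleteSpace E] [LieGroup 𝓘(ℂ, E) ω G] [T2Space G] :
    Nonempty (ExpLog E G) := by
  have : IsTopologicalGroup G := topologicalGroup_of_lieGroup 𝓘(ℂ, E) ω
  obtain ⟨R, ρ, C, C₁, ht, hsmall⟩ := exists_small (E := E) (G := G)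
  obtain ⟨_, hS0, _, _⟩ := hsmall 1 one_pos
  obtain ⟨L, hLc, hL', hL0, hLt⟩ := hS0.contr.koenigs
  have hρ : 0 < ρ := hS0.contr.ρ_pos
  have hLc0 : ContDiffAt ℂ 1 L 0 := hLc.contDiffAt (ball_mem_nhds 0 hρ)
  have hL'' : HasFDerivAt L ((ContinuousLinearEquiv.refl ℂ E : E ≃L[ℂ] E) : E →L[ℂ] E) 0 := hL'
  let H := hLc0.toOpenPartialHomeomorph L hL'' (by simp)
  have hHs : (0 : E) ∈ H.source := hLc0.mem_toOpenPartialHomeomorph_source hL'' (by simp)
  have hHt : (0 : E) ∈ H.target := by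
    have := hLc0.image_mem_toOpenPartialHomeomorph_target hL'' (by simp)
    rwa [hL0] at this
  let Λ : E → E := H.symm
  have hΛ0 : Λ 0 = 0 := by
    have h1 : H.symm (H 0) = 0 := H.left_inv hHs
    have h2 : H 0 = 0 := hL0
    rw [h2] at h1
    exact h1
  have hΛc : ContDiffAt ℂ 1 Λ 0 := by
    have := hLc0.to_localInverse hL'' (by simp)
    rw [hL0] at this
    exact this
  have hΛcont : Tendsto Λ (𝓝 0) (𝓝 0) := by
    have := hΛc.continuousAt
    simpa [ContinuousAt, hΛ0] using this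
  obtain ⟨σ, hσ, hσs⟩ := Metric.mem_nhds_iff.1 (H.open_source.mem_nhds hHs)
  obtain ⟨ρ₁, hS, hlt, hdiff⟩ := hsmall σ hσ
  have hρ₁ : 0 < ρ₁ := hS.ρ₁_pos
  have hε : 0 < min ρ₁ σ := lt_min hρ₁ hσ
  have hΛd : ∀ᶠ X in 𝓝 (0 : E), DifferentiableAt ℂ Λ X := by
    filter_upwards [hΛc.eventually (by simp)] with X hX
    exact hX.differentiableAt (by simp)
  have hΛsmall : ∀ᶠ X in 𝓝 (0 : E), ‖Λ X‖ < min ρ₁ σ := by
    have h1 : Tendsto (fun X : E => ‖Λ X‖) (𝓝 0) (𝓝 0) := by simpa using hΛcont.norm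
    exact h1.eventually (gt_mem_nhds hε)
  have hΛt : ∀ᶠ X in 𝓝 (0 : E), X ∈ H.target := H.open_target.mem_nhds hHt
  obtain ⟨r, hr, hball⟩ := Metric.eventually_nhds_iff_ball.1
    (hΛsmall.and (hΛd.and (hΛt.and
      (hΛcont.eventually (eventually_inv (E := E) (G := G) hε)))))
  have hΛlt : ∀ X : E, ‖X‖ < r → ‖Λ X‖ < ρ₁ := fun X hX =>
    (hball X (by simpa using hX)).1.trans_le (min_le_left _ _)
  have hΛlt' : ∀ X : E, ‖X‖ < r → ‖Λ X‖ < σ := fun X hX =>
    (hball X (by simpa using hX)).1.trans_le (min_le_right _ _)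
  have hLΛ : ∀ X : E, ‖X‖ < r → L (Λ X) = X := fun X hX =>
    H.right_inv (hball X (by simpa using hX)).2.2.1
  have hΛL : ∀ x : E, ‖x‖ < σ → Λ (L x) = x := fun x hx =>
    H.left_inv (hσs (by simpa using hx))
  have hLadd : ∀ x y : E, ‖x‖ < ρ₁ → ‖y‖ < ρ₁ → Commute (lcs G x) (lcs G y) →
      L (lM G ((x, y) : E × E)) = L x + L y := fun x y hx hy hc => hS.log_add hLt hx hy hc
  -- the open set `U`
  let W : Set E := H.symm '' ball 0 r
  have hW : IsOpen W := H.symm.isOpen_image_of_subset_source isOpen_ball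
    (fun X hX => (hball X hX).2.2.1)
  let e : E → G := fun X => lcs G (Λ X)
  let l : G → E := fun g => L (lc E g)
  let U : Set G := (extChartAt 𝓘(ℂ, E) (1 : G)).source ∩ (lc E : G → E) ⁻¹' W
  have hcomm : ∀ X Y : E, ‖X‖ < r → ‖Y‖ < r → Commute (e X) (e Y) →
      e (X + Y) = e X * e Y := by
    intro X Y hX hY hc
    have h1 := hLadd (Λ X) (Λ Y) (hΛlt X hX) (hΛlt Y hY) hc
    rw [hLΛ X hX, hLΛ Y hY] at h1
    have h2 := hΛL (lM G ((Λ X, Λ Y) : E × E)) (hlt _ _ (hΛlt X hX) (hΛlt Y hY))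
    rw [h1] at h2
    show lcs G (Λ (X + Y)) = lcs G (Λ X) * lcs G (Λ Y)
    rw [h2, ← hS.mul _ _ (hΛlt X hX) (hΛlt Y hY)]
  have hneg : ∀ X : E, ‖X‖ < r → e (-X) = (e X)⁻¹ := by
    intro X hX
    obtain ⟨w, hw, hw'⟩ := (hball X (by simpa using hX)).2.2.2
    have hc : Commute (lcs G (Λ X)) (lcs G w) := by
      rw [← hw']; exact (Commute.refl _).inv_right
    have h1 := hLadd (Λ X) w (hΛlt X hX) (hw.trans_le (min_le_left _ _)) hc
    have h2 : lM G ((Λ X, w) : E × E) = 0 := by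
      show lc E (lcs G (Λ X) * lcs G w) = 0
      rw [← hw', mul_inv_cancel, lc_one]
    rw [h2, hL0, hLΛ X hX] at h1
    have h3 : -X = L w := by
      rw [neg_eq_iff_add_eq_zero, h1]
    show lcs G (Λ (-X)) = (lcs G (Λ X))⁻¹
    rw [h3, hΛL w (hw.trans_le (min_le_right _ _)), hw']
  have he0 : e 0 = 1 := by
    show lcs G (Λ 0) = 1
    rw [hΛ0, lcs_zero]
  -- multiples
  have hnat : ∀ (Y : E) (k : ℕ), ‖(k : ℝ) • Y‖ < r → e ((k : ℝ) • Y) = e Y ^ k := by
    intro Y k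
    induction k with
    | zero => intro _; simp [he0]
    | succ k ih =>
      intro hk
      have hn : ‖((k + 1 : ℕ) : ℝ) • Y‖ = (k + 1 : ℝ) * ‖Y‖ := by
        rw [norm_smul]
        congr 1
        rw [Real.norm_eq_abs, abs_of_nonneg (by positivity)]
        push_cast
        ring
      rw [hn] at hk
      have h1 : ‖(k : ℝ) • Y‖ = k * ‖Y‖ := by
        rw [norm_smul, Real.norm_eq_abs, abs_of_nonneg (by positivity)]
      have hY0 := norm_nonneg Y
      have hk0 : (0 : ℝ) ≤ k := by positivity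
      have h2 : ‖(k : ℝ) • Y‖ < r := by rw [h1]; nlinarith
      have h3 : ‖Y‖ < r := by nlinarith
      have h4 : ((k + 1 : ℕ) : ℝ) • Y = (k : ℝ) • Y + Y := by
        push_cast; rw [add_smul, one_smul]
      rw [h4, hcomm _ _ h2 h3, ih h2, pow_succ]
      rw [ih h2]
      exact (Commute.refl (e Y)).pow_left k
  have hint : ∀ (Y : E) (k : ℤ), ‖(k : ℝ) • Y‖ < r → e ((k : ℝ) • Y) = e Y ^ k := by
    intro Y k hk
    obtain ⟨n, rfl | rfl⟩ := k.eq_nat_or_neg
    · simp only [Int.cast_natCast] at hk ⊢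
      rw [hnat Y n hk, zpow_natCast]
    · simp only [Int.cast_neg, Int.cast_natCast, neg_smul, norm_neg] at hk ⊢
      rw [hneg _ hk, hnat Y n hk, zpow_neg, zpow_natCast]
  -- rational multiples commute
  have hrat : ∀ (X : E) (s t : ℚ), ‖(s : ℝ) • X‖ < r → ‖(t : ℝ) • X‖ < r →
      Commute (e ((s : ℝ) • X)) (e ((t : ℝ) • X)) := by
    intro X s t hs ht'
    let Y : E := (1 / ((s.den : ℝ) * t.den)) • X
    have hs' : (s : ℝ) • X = ((s.num * t.den : ℤ) : ℝ) • Y := by
      show (s : ℝ) • X = ((s.num * t.den : ℤ) : ℝ) • ((1 / ((s.den : ℝ) * t.den)) • X)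
      rw [smul_smul]
      congr 1
      have h1 : (s.den : ℝ) ≠ 0 := by exact_mod_cast s.den_nz
      have h2 : (t.den : ℝ) ≠ 0 := by exact_mod_cast t.den_nz
      have h3 : (s : ℝ) = s.num / s.den := by exact_mod_cast (Rat.num_div_den s).symm
      rw [h3]
      push_cast
      field_simp
    have ht'' : (t : ℝ) • X = ((t.num * s.den : ℤ) : ℝ) • Y := by
      show (t : ℝ) • X = ((t.num * s.den : ℤ) : ℝ) • ((1 / ((s.den : ℝ) * t.den)) • X)
      rw [smul_smul]
      congr 1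
      have h1 : (s.den : ℝ) ≠ 0 := by exact_mod_cast s.den_nz
      have h2 : (t.den : ℝ) ≠ 0 := by exact_mod_cast t.den_nz
      have h3 : (t : ℝ) = t.num / t.den := by exact_mod_cast (Rat.num_div_den t).symm
      rw [h3]
      push_cast
      field_simp
    rw [hs'] at hs ⊢
    rw [ht''] at ht' ⊢
    rw [hint Y _ hs, hint Y _ ht']
    exact ((Commute.refl (e Y)).zpow_left _).zpow_right _
  -- continuity
  have hMe : ∀ X : E, ‖X‖ < r → MDifferentiableAt 𝓘(ℂ, E) 𝓘(ℂ, E) e X := by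
    intro X hX
    have h1 : MDifferentiableAt 𝓘(ℂ, E) 𝓘(ℂ, E) Λ X :=
      (hball X (by simpa using hX)).2.1.mdifferentiableAt
    have h2 : MDifferentiableAt 𝓘(ℂ, E) 𝓘(ℂ, E) (lcs G : E → G) (Λ X) :=
      (contMDiffAt_lcs (ht _ ((hΛlt X hX).trans_le hS.ρ₁_le))).mdifferentiableAt (by simp)
    exact MDifferentiableAt.comp (g := (lcs G : E → G)) (f := Λ) X h2 h1
  have hce : ∀ X : E, ‖X‖ < r → ContinuousAt e X := fun X hX => (hMe X hX).continuousAt
  have hcline : ∀ (X : E) (s : ℝ), ‖s • X‖ < r → ContinuousAt (fun s : ℝ => e (s • X)) s := by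
    intro X s hs
    exact ContinuousAt.comp (g := e) (f := fun s : ℝ => s • X) (hce _ hs)
      (by fun_prop)
  have hopen : ∀ (X : E) (s : ℝ), ‖s • X‖ < r → ∀ᶠ x : ℝ in 𝓝 s, ‖x • X‖ < r := by
    intro X s hs
    have h1 : Continuous (fun x : ℝ => ‖x • X‖) := by fun_prop
    exact h1.continuousAt.eventually (gt_mem_nhds hs)
  have hreal1 : ∀ (X : E) (s : ℝ) (t : ℚ), ‖s • X‖ < r → ‖(t : ℝ) • X‖ < r →
      Commute (e (s • X)) (e ((t : ℝ) • X)) := by
    intro X s t hs ht'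
    refine eq_of_rat (f := fun s : ℝ => e (s • X) * e ((t : ℝ) • X))
      (g := fun s : ℝ => e ((t : ℝ) • X) * e (s • X))
      ((hcline X s hs).mul continuousAt_const) (continuousAt_const.mul (hcline X s hs)) ?_
    filter_upwards [hopen X s hs] with x hx q hq
    rw [← hq] at hx
    exact hrat X q t hx ht'
  have hreal : ∀ (X : E) (s t : ℝ), ‖s • X‖ < r → ‖t • X‖ < r →
      Commute (e (s • X)) (e (t • X)) := by
    intro X s t hs ht'
    refine eq_of_rat (f := fun t : ℝ => e (s • X) * e (t • X))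
      (g := fun t : ℝ => e (t • X) * e (s • X))
      (continuousAt_const.mul (hcline X t ht')) ((hcline X t ht').mul continuousAt_const) ?_
    filter_upwards [hopen X t ht'] with x hx q hq
    rw [← hq] at hx
    exact hreal1 X s q hs hx
  -- complex multiples
  have hcomplex : ∀ (X : E) (s t : ℂ), ‖s • X‖ < r → ‖t • X‖ < r →
      Commute (e (s • X)) (e (t • X)) := by
    intro X
    let D : Set ℂ := {s : ℂ | ‖s • X‖ < r}
    have hDopen : IsOpen D := by
      have h1 : Continuous (fun x : ℂ => ‖x • X‖) := by fun_prop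
      exact isOpen_lt h1 continuous_const
    have hD0 : (0 : ℂ) ∈ D := by simpa [D] using hr
    have hDpre : IsPreconnected D := by
      have h1 : Convex ℝ D := by
        intro a ha b hb p q hp hq hpq
        have ha' : ‖a • X‖ < r := ha
        have hb' : ‖b • X‖ < r := hb
        show ‖(p • a + q • b) • X‖ < r
        have h2 : (p • a + q • b) • X = p • (a • X) + q • (b • X) := by
          rw [add_smul, smul_assoc, smul_assoc]
        rw [h2]
        calc ‖p • (a • X) + q • (b • X)‖ ≤ ‖p • (a • X)‖ + ‖q • (b • X)‖ := norm_add_le _ _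
          _ = p * ‖a • X‖ + q * ‖b • X‖ := by
              rw [norm_smul p, norm_smul q, Real.norm_eq_abs, Real.norm_eq_abs, abs_of_nonneg hp,
                abs_of_nonneg hq]
          _ < r := by
              rcases hp.eq_or_lt with h | h
              · have : q = 1 := by linarith
                rw [← h, this]; linarith
              · nlinarith
      exact h1.isPreconnected
    let Fn : ℂ → ℂ → E := fun s t =>
      lM G ((Λ (s • X), Λ (t • X)) : E × E) - lM G ((Λ (t • X), Λ (s • X)) : E × E)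
    have hFn : ∀ s t : ℂ, s ∈ D → t ∈ D → (Fn s t = 0 ↔ Commute (e (s • X)) (e (t • X))) := by
      intro s t hs ht'
      have h1 := hS.mul _ _ (hΛlt _ hs) (hΛlt _ ht')
      have h2 := hS.mul _ _ (hΛlt _ ht') (hΛlt _ hs)
      constructor
      · intro h
        have h3 : lM G ((Λ (s • X), Λ (t • X)) : E × E) = lM G ((Λ (t • X), Λ (s • X)) : E × E) :=
          sub_eq_zero.1 h
        show lcs G (Λ (s • X)) * lcs G (Λ (t • X)) = lcs G (Λ (t • X)) * lcs G (Λ (s • X))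
        rw [h1, h2, h3]
      · intro h
        have h3 : lcs G (Λ (s • X)) * lcs G (Λ (t • X)) =
          lcs G (Λ (t • X)) * lcs G (Λ (s • X)) := h
        show lc E (lcs G (Λ (s • X)) * lcs G (Λ (t • X))) -
          lc E (lcs G (Λ (t • X)) * lcs G (Λ (s • X))) = 0
        rw [h3, sub_self]
    have hΛs : ∀ s ∈ D, DifferentiableAt ℂ (fun s : ℂ => Λ (s • X)) s := by
      intro s hs
      have h1 : DifferentiableAt ℂ Λ (s • X) := (hball _ (by
        have hs' : ‖s • X‖ < r := hs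
        simpa using hs')).2.1
      exact DifferentiableAt.comp s (g := Λ) (f := fun s : ℂ => s • X) h1 (by fun_prop)
    have hd1 : ∀ t ∈ D, DifferentiableOn ℂ (fun s => Fn s t) D := by
      intro t ht' s hs
      have h1 := hΛs s hs
      have h2 : DifferentiableAt ℂ (fun s : ℂ => lM G ((Λ (s • X), Λ (t • X)) : E × E)) s :=
        DifferentiableAt.comp s (g := lM G)
          (f := fun s : ℂ => ((Λ (s • X), Λ (t • X)) : E × E))
          (hdiff _ _ (hΛlt _ hs) (hΛlt _ ht')) (h1.prodMk (differentiableAt_const _))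
      have h3 : DifferentiableAt ℂ (fun s : ℂ => lM G ((Λ (t • X), Λ (s • X)) : E × E)) s :=
        DifferentiableAt.comp s (g := lM G)
          (f := fun s : ℂ => ((Λ (t • X), Λ (s • X)) : E × E))
          (hdiff _ _ (hΛlt _ ht') (hΛlt _ hs)) ((differentiableAt_const _).prodMk h1)
      exact (h2.sub h3).differentiableWithinAt
    have hd2 : ∀ s ∈ D, DifferentiableOn ℂ (fun t => Fn s t) D := by
      intro s hs
      have h1 := (hd1 s hs).neg
      refine h1.congr (fun t _ => ?_)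
      simp [Fn]
    have hz : ∀ (s t : ℝ), (s : ℂ) ∈ D → (t : ℂ) ∈ D → Fn s t = 0 := by
      intro s t hs ht'
      rw [hFn _ _ hs ht']
      have h1 : ((s : ℂ)) • X = s • X := by simp
      have h2 : ((t : ℂ)) • X = t • X := by simp
      rw [h1, h2]
      refine hreal X s t ?_ ?_
      · rw [← h1]; exact hs
      · rw [← h2]; exact ht'
    have hz1 : ∀ (t : ℝ), (t : ℂ) ∈ D → ∀ s ∈ D, Fn s t = 0 := fun t ht' =>
      eq_zero_of_real hDopen hDpre hD0 (hd1 t ht') (fun s hs => hz s t hs ht')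
    have hz2 : ∀ s ∈ D, ∀ t ∈ D, Fn s t = 0 := fun s hs =>
      eq_zero_of_real hDopen hDpre hD0 (hd2 s hs) (fun t ht' => hz1 t ht' s hs)
    intro s t hs ht'
    exact (hFn s t hs ht').1 (hz2 s hs t ht')
  refine ⟨⟨r, e, l, U, hr, he0, ?_, ?_, ?_, ?_, ?_, ?_, ?_, ?_, ?_, hcomm, hneg, hcomplex⟩⟩
  · intro X hX
    exact (hMe X (by simpa using hX)).mdifferentiableWithinAt
  · have h1 : HasFDerivAt Λ (ContinuousLinearMap.id ℂ E) 0 := by
      have hs := (hLc0.hasStrictFDerivAt' hL'' (by simp)).to_localInverse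
      rw [hL0] at hs
      exact hs.hasFDerivAt
    refine h1.congr_of_eventuallyEq ?_
    filter_upwards [ball_mem_nhds (0 : E) hr] with X hX
    exact lc_lcs (ht _ ((hΛlt X (by simpa using hX)).trans_le hS.ρ₁_le))
  · have h1 : ContinuousOn (lc E : G → E) (extChartAt 𝓘(ℂ, E) (1 : G)).source := fun g hg =>
      (contMDiffAt_lc hg).continuousAt.continuousWithinAt
    exact h1.isOpen_inter_preimage (isOpen_extChartAt_source (1 : G)) hW
  · refine ⟨mem_extChartAt_source (1 : G), ?_⟩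
    show lc E (1 : G) ∈ W
    rw [lc_one]
    exact ⟨0, mem_ball_self hr, hΛ0⟩
  · rintro g ⟨hg, X, hX, hXg⟩
    have hX' : ‖X‖ < r := by simpa using hX
    have h1 : MDifferentiableAt 𝓘(ℂ, E) 𝓘(ℂ, E) (lc E : G → E) g :=
      (contMDiffAt_lc hg).mdifferentiableAt (by simp)
    have h2 : ‖lc E g‖ < ρ := by
      rw [← hXg]; exact (hΛlt X hX').trans_le hS.ρ₁_le
    have h3 : MDifferentiableAt 𝓘(ℂ, E) 𝓘(ℂ, E) L (lc E g) :=
      ((hLc.contDiffAt (isOpen_ball.mem_nhds (by simpa using h2))).differentiableAt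
        (by simp)).mdifferentiableAt
    exact (MDifferentiableAt.comp g h3 h1).mdifferentiableWithinAt
  · rintro g ⟨hg, X, hX, hXg⟩
    have hX' : ‖X‖ < r := by simpa using hX
    show ‖L (lc E g)‖ < r
    rw [← hXg]
    have : L (H.symm X) = X := hLΛ X hX'
    rw [this]; exact hX'
  · rintro g ⟨hg, X, hX, hXg⟩
    have hX' : ‖X‖ < r := by simpa using hX
    show lcs G (Λ (L (lc E g))) = g
    rw [← hXg]
    have : L (H.symm X) = X := hLΛ X hX'
    rw [this]
    show lcs G (H.symm X) = g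
    rw [hXg, lcs_lc hg]
  · intro X hX
    have h1 := ht _ ((hΛlt X hX).trans_le hS.ρ₁_le)
    refine ⟨(extChartAt 𝓘(ℂ, E) (1 : G)).map_target h1, ?_⟩
    show lc E (lcs G (Λ X)) ∈ W
    rw [lc_lcs h1]
    exact ⟨X, by simpa using hX, rfl⟩
  · intro X hX
    show L (lc E (lcs G (Λ X))) = X
    rw [lc_lcs (ht _ ((hΛlt X hX).trans_le hS.ρ₁_le)), hLΛ X hX]

namespace ExpLog

/-- Additivity along lines. -/
theorem add_smul (T : ExpLog E G) (X : E) (s t : ℂ) (hs : ‖s • X‖ < T.r) (ht : ‖t • X‖ < T.r) :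
    T.e ((s + t) • X) = T.e (s • X) * T.e (t • X) := by
  rw [_root_.add_smul]
  exact T.add_of_comm _ _ hs ht (T.comm_smul X s t hs ht)

end ExpLog

/-- Strong form of block LX1. -/
theorem LX1plus (E : Type) [NormedAddCommGroup E] [NormedSpace ℂ E] [FiniteDimensional ℂ E]
    (G : Type) [TopologicalSpace G] [ChartedSpace E G] [Group G] [LieGroup 𝓘(ℂ, E) ω G]
    [T2Space G] :
    ∃ (r : ℝ) (e : E → G) (log : G → E) (U : Set G), 0 < r ∧ e 0 = 1 ∧ IsOpen U ∧ (1 : G) ∈ U ∧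
    MDifferentiableOn 𝓘(ℂ, E) 𝓘(ℂ, E) e (Metric.ball 0 r) ∧
    MDifferentiableOn 𝓘(ℂ, E) 𝓘(ℂ, E) log U ∧
    (∀ g ∈ U, ‖log g‖ < r ∧ e (log g) = g) ∧ (∀ X, ‖X‖ < r → e X ∈ U ∧ log (e X) = X) ∧
    (∀ (X : E) (s t : ℂ), ‖s • X‖ < r → ‖t • X‖ < r → ‖(s + t) • X‖ < r →
      e ((s + t) • X) = e (s • X) * e (t • X)) ∧
    (∀ X Y : E, ‖X‖ < r → ‖Y‖ < r → ‖X + Y‖ < r → e X * e Y = e Y * e X →
      e (X + Y) = e X * e Y) := by
  have : CompleteSpace E := FiniteDimensional.complete ℂ E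
  obtain ⟨T⟩ := exists_expLog (E := E) (G := G)
  exact ⟨T.r, T.e, T.l, T.U, T.r_pos, T.e_zero, T.U_open, T.one_mem, T.e_hol, T.l_hol,
    fun g hg => ⟨T.l_lt g hg, T.e_l g hg⟩, fun X hX => ⟨T.e_mem X hX, T.l_e X hX⟩,
    fun X s t hs ht _ => T.add_smul X s t hs ht,
    fun X Y hX hY _ hc => T.add_of_comm X Y hX hY hc⟩

/-- Block LX1. -/
theorem stmt_LX1 : Full.Stmt_LX1 := by
  intro E _ _ _ G _ _ _ _ _
  have : CompleteSpace E := FiniteDimensional.complete ℂ E
  obtain ⟨T⟩ := exists_expLog (E := E) (G := G)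
  refine ⟨T.r, T.e, T.r_pos, T.e_zero, T.e_hol, ?_, ?_⟩
  · have h1 := T.e_deriv.add_const (extChartAt 𝓘(ℂ, E) (1 : G) 1)
    refine h1.congr_of_eventuallyEq (Eventually.of_forall fun X => ?_)
    simp [lc]
  · intro X s t hs ht _
    exact T.add_smul X s t hs ht

end Pool.Agent.Work.MP_970e75_an.LX
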